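import Pool.Agent.Y437.AX.Stmt

set_option autoImplicit false

/-!
# The algebra with an arbitrary set of components
-/

namespace Pool.Agent.Y437.AX1

open Pool.Agent.H198R3.Axial Pool.Agent.Y437.AX

universe u

/-- The underlying space of the algebra. -/
def AI (F : Type u) [Field F] (ι : Type u) (_x : F) : Type u := (ι →₀ BB F) × F

variable {F : Type u} [Field F] (ι : Type u) (x : F)

noncomputable instance : AddCommGroup (AI F ι x) := inferInstanceAs (AddCommGroup ((ι →₀ BB F) × F))
noncomputable instance : Module F (AI F ι x) := inferInstanceAs (Module F ((ι →₀ BB F) × F))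

/-- The coordinate `m` on `B`. -/
def mL (F : Type u) [Field F] : BB F →ₗ[F] F :=
  { toFun := fun b => b.2.2, map_add' := fun _ _ => rfl, map_smul' := fun _ _ => rfl }

/-- The sum of the `m`-coordinates. -/
noncomputable def ms (F : Type u) [Field F] (ι : Type u) : (ι →₀ BB F) →ₗ[F] F :=
  Finsupp.lsum F (fun _ => mL F)

theorem ms_single (i : ι) (b : BB F) : ms F ι (Finsupp.single i b) = b.2.2 := by
  rw [ms, Finsupp.lsum_single]
  rfl

theorem mulB_zero (a : BB F) : mulB x a 0 = 0 := by
  have := mulB_smul x 0 a 0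
  rwa [zero_smul, zero_smul] at this

theorem zero_mulB (a : BB F) : mulB x 0 a = 0 := by rw [mulB_comm, mulB_zero]

/-- The product. -/
noncomputable def mulI (a b : AI F ι x) : AI F ι x :=
  (Finsupp.zipWith (mulB x) (mulB_zero x 0) a.1 b.1, ms F ι a.1 * ms F ι b.1)

theorem mulI_comm (a b : AI F ι x) : mulI ι x a b = mulI ι x b a := by
  refine Prod.ext (Finsupp.ext fun i => ?_) (mul_comm _ _)
  exact mulB_comm _ _ _

theorem mulI_add (a b c : AI F ι x) : mulI ι x a (b + c) = mulI ι x a b + mulI ι x a c := by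
  refine Prod.ext (Finsupp.ext fun i => mulB_add _ _ _ _) ?_
  change ms F ι a.1 * ms F ι (b.1 + c.1) = ms F ι a.1 * ms F ι b.1 + ms F ι a.1 * ms F ι c.1
  rw [map_add, mul_add]

theorem mulI_smul (r : F) (a b : AI F ι x) : mulI ι x a (r • b) = r • mulI ι x a b := by
  refine Prod.ext (Finsupp.ext fun i => mulB_smul _ _ _ _) ?_
  change ms F ι a.1 * ms F ι (r • b.1) = r * (ms F ι a.1 * ms F ι b.1)
  rw [map_smul, smul_eq_mul]
  ring

theorem mulI_zero (a : AI F ι x) : mulI ι x a 0 = 0 := by
  have := mulI_smul ι x 0 a 0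
  rwa [zero_smul, zero_smul] at this

noncomputable instance : NonUnitalNonAssocCommRing (AI F ι x) :=
  { (inferInstance : AddCommGroup (AI F ι x)) with
    mul := mulI ι x
    left_distrib := mulI_add ι x
    right_distrib := fun a b c => by
      change mulI ι x (a + b) c = mulI ι x a c + mulI ι x b c
      rw [mulI_comm, mulI_add, mulI_comm ι x c, mulI_comm ι x c]
    zero_mul := fun a => by
      change mulI ι x 0 a = 0
      rw [mulI_comm, mulI_zero]
    mul_zero := mulI_zero ι x
    mul_comm := mulI_comm ι x }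

instance : SMulCommClass F (AI F ι x) (AI F ι x) := ⟨fun r a b => (mulI_smul ι x r a b).symm⟩

instance : IsScalarTower F (AI F ι x) (AI F ι x) := ⟨fun r a b => by
  change mulI ι x (r • a) b = r • mulI ι x a b
  rw [mulI_comm, mulI_smul, mulI_comm]⟩

theorem mul_def (a b : AI F ι x) : a * b = mulI ι x a b := rfl

/-- An element of one of the copies of `B`. -/
noncomputable def inj (i : ι) (b : BB F) : AI F ι x := (Finsupp.single i b, 0)

/-- The axes. -/
noncomputable def ax (p : ι × Fin 4) : AI F ι x := inj ι x p.1 (axB F p.2)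

theorem inj_apply_same (i : ι) (b : BB F) : (inj ι x i b).1 i = b := Finsupp.single_eq_same

theorem inj_apply_ne {i j : ι} (h : j ≠ i) (b : BB F) : (inj ι x i b).1 j = 0 :=
  Finsupp.single_eq_of_ne h

theorem inj_zero (i : ι) : inj ι x i (0 : BB F) = 0 :=
  Prod.ext (Finsupp.single_zero _) rfl

/-- Comparison with an element of a copy. -/
theorem eq_inj_iff (i : ι) (u : AI F ι x) (b : BB F) :
    u = inj ι x i b ↔ u.1 i = b ∧ (∀ j, j ≠ i → u.1 j = 0) ∧ u.2 = 0 := by
  constructor
  · rintro rfl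
    exact ⟨inj_apply_same ι x i b, fun j hj => inj_apply_ne ι x hj b, rfl⟩
  · rintro ⟨h1, h2, h3⟩
    refine Prod.ext (Finsupp.ext fun j => ?_) h3
    by_cases h : j = i
    · subst h
      rw [h1]
      exact (inj_apply_same ι x j b).symm
    · rw [h2 j h]
      exact (inj_apply_ne ι x h b).symm

theorem mul_fst (a b : AI F ι x) (j : ι) : (a * b).1 j = mulB x (a.1 j) (b.1 j) := rfl

theorem mul_snd (a b : AI F ι x) : (a * b).2 = ms F ι a.1 * ms F ι b.1 := rfl

theorem ax_mul (p : ι × Fin 4) (u : AI F ι x) :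
    ax ι x p * u = inj ι x p.1 (mulB x (axB F p.2) (u.1 p.1)) := by
  rw [eq_inj_iff]
  refine ⟨?_, fun j hj => ?_, ?_⟩
  · rw [mul_fst, ax, inj_apply_same]
  · rw [mul_fst, ax, inj_apply_ne ι x hj, zero_mulB]
  · rw [mul_snd]
    have : ms F ι (ax ι x p).1 = 0 := by
      change ms F ι (Finsupp.single p.1 (axB F p.2)) = 0
      rw [ms_single]
      rfl
    rw [this, zero_mul]

theorem pm_single_single (i : Fin 4) (c : F) : ∀ k, pm (Pi.single i 1) (Pi.single i c) k = 0 := by
  intro k
  fin_cases i <;> fin_cases k <;> simp [pm]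

theorem ax_idem (p : ι × Fin 4) : ax ι x p * ax ι x p = ax ι x p := by
  rw [ax_mul]
  have h0 : (ax ι x p).1 p.1 = axB F p.2 := inj_apply_same ι x p.1 _
  rw [h0, axB_mul]
  change inj ι x p.1 (Pi.single p.2 ((Pi.single p.2 1 : Fin 4 → F) p.2), fun k =>
    pm (Pi.single p.2 1) (Pi.single p.2 1) k + x * (0 : Fin 7 → F) k, 0) = inj ι x p.1 (axB F p.2)
  congr 1
  refine Prod.ext ?_ (Prod.ext (funext fun k => ?_) rfl)
  · simp [axB]
  · change pm (Pi.single p.2 1) (Pi.single p.2 1) k + x * 0 = 0
    rw [pm_single_single]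
    ring

theorem inj_injective (i : ι) : Function.Injective (inj (F := F) ι x i) := by
  intro a b h
  have h1 : (inj ι x i a).1 i = (inj ι x i b).1 i := congrArg (fun u : AI F ι x => u.1 i) h
  rwa [inj_apply_same, inj_apply_same] at h1

theorem inj_smul (i : ι) (r : F) (b : BB F) : inj ι x i (r • b) = r • inj ι x i b :=
  Prod.ext (Finsupp.smul_single r i b).symm (smul_zero r).symm

theorem inj_add (i : ι) (b c : BB F) : inj ι x i (b + c) = inj ι x i b + inj ι x i c :=
  Prod.ext (Finsupp.single_add i b c) (add_zero 0).symm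

theorem ax_ne_zero (p : ι × Fin 4) : ax ι x p ≠ 0 := by
  intro h
  have h1 : ((ax ι x p).1 p.1).1 p.2 = 0 :=
    congrArg (fun u : AI F ι x => (u.1 p.1).1 p.2) h
  have h2 : ((ax ι x p).1 p.1).1 p.2 = 1 := by
    rw [ax, inj_apply_same]
    simp [axB]
  rw [h2] at h1
  exact one_ne_zero h1

/-- `a (a u) = φ a + x (a u - φ a)`. -/
theorem ax_ax_mul (p : ι × Fin 4) (u : AI F ι x) :
    ax ι x p * (ax ι x p * u) = ((u.1 p.1).1 p.2) • ax ι x p +
      x • (ax ι x p * u - ((u.1 p.1).1 p.2) • ax ι x p) := by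
  rw [ax_mul ι x p u, ax_mul]
  have h1 : (inj ι x p.1 (mulB x (axB F p.2) (u.1 p.1))).1 p.1 =
      mulB x (axB F p.2) (u.1 p.1) := inj_apply_same ι x p.1 _
  rw [h1, ax, ← inj_smul, sub_eq_add_neg, ← neg_one_smul F (inj ι x p.1 _), ← inj_smul, ← inj_add,
    ← inj_smul, ← inj_add]
  congr 1
  rw [axB_mul x p.2 (mulB x (axB F p.2) (u.1 p.1)), axB_mul]
  refine Prod.ext ?_ (Prod.ext (funext fun k => ?_) ?_)
  · funext j
    by_cases h : j = p.2
    · subst h; simp [axB]
    · simp [axB, h]
  · simp only [pm_single_single, Pi.single_eq_same, axB, Prod.smul_mk, Prod.mk_add_mk,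
      Pi.add_apply, Pi.smul_apply, Pi.zero_apply, smul_eq_mul]
    ring
  · simp [axB]

theorem pm_zero_right (s : Fin 4 → F) (k : Fin 7) : pm s 0 k = 0 := by
  have := pm_smul 0 s (0 : Fin 4 → F) k
  rwa [zero_smul, zero_mul] at this

/-- Elements with eigenvalue `x`. -/
theorem eig_x (hx0 : x ≠ 0) (hx1 : x ≠ 1) (p : ι × Fin 4) (u : AI F ι x) :
    u ∈ eig F (ax ι x p) x ↔ ∃ v : Fin 7 → F, u = inj ι x p.1 (0, v, 0) := by
  change ax ι x p * u = x • u ↔ _
  rw [ax_mul]
  constructor
  · intro h
    refine ⟨(u.1 p.1).2.1, ?_⟩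
    have h1 : ∀ j, (inj ι x p.1 (mulB x (axB F p.2) (u.1 p.1))).1 j = x • u.1 j := fun j =>
      congrArg (fun w : AI F ι x => w.1 j) h
    have h2 : (0 : F) = x * u.2 := congrArg (fun w : AI F ι x => w.2) h
    rw [eq_inj_iff]
    refine ⟨?_, fun j hj => ?_, ?_⟩
    · have h3 := h1 p.1
      rw [inj_apply_same, axB_mul] at h3
      refine Prod.ext (funext fun i => ?_) (Prod.ext rfl ?_)
      · have h5 := congrArg (fun w : BB F => w.1 i) h3
        simp only [Prod.smul_fst, Pi.smul_apply, smul_eq_mul] at h5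
        by_cases hi : i = p.2
        · subst hi
          rw [Pi.single_eq_same] at h5
          have : (1 - x) * (u.1 p.1).1 p.2 = 0 := by linear_combination h5
          rcases mul_eq_zero.mp this with h | h
          · exact absurd (sub_eq_zero.mp h).symm hx1
          · exact h
        · rw [Pi.single_eq_of_ne hi] at h5
          rcases mul_eq_zero.mp h5.symm with h | h
          · exact absurd h hx0
          · exact h
      · have h5 := congrArg (fun w : BB F => w.2.2) h3
        simp only [Prod.smul_snd, smul_eq_mul] at h5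
        rcases mul_eq_zero.mp h5.symm with h | h
        · exact absurd h hx0
        · exact h
    · have h3 := h1 j
      rw [inj_apply_ne ι x hj] at h3
      exact (smul_eq_zero.mp h3.symm).resolve_left hx0
    · rcases mul_eq_zero.mp h2.symm with h | h
      · exact absurd h hx0
      · exact h
  · rintro ⟨v, rfl⟩
    rw [← inj_smul]
    congr 1
    rw [inj_apply_same, axB_mul]
    refine Prod.ext ?_ (Prod.ext (funext fun k => ?_) ?_)
    · simp
    · have : pm (Pi.single p.2 1) (0 : Fin 4 → F) k = 0 := pm_zero_right _ _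
      simp only [this, Prod.smul_snd, Prod.smul_fst, Pi.smul_apply, smul_eq_mul]
      ring
    · simp

theorem eig_one (hx1 : x ≠ 1) (p : ι × Fin 4) :
    eig F (ax ι x p) 1 = Submodule.span F {ax ι x p} := by
  apply le_antisymm
  · intro u hu
    change ax ι x p * u = (1 : F) • u at hu
    rw [one_smul] at hu
    rw [Submodule.mem_span_singleton]
    refine ⟨(u.1 p.1).1 p.2, ?_⟩
    have h1 := ax_ax_mul ι x p u
    rw [hu, hu] at h1
    have h2 : (1 - x) • (u - ((u.1 p.1).1 p.2) • ax ι x p) = 0 := by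
      rw [sub_smul, one_smul]
      nth_rewrite 1 [h1]
      abel
    rcases smul_eq_zero.mp h2 with h | h
    · exact absurd (sub_eq_zero.mp h).symm hx1
    · exact (sub_eq_zero.mp h).symm
  · rw [Submodule.span_le]
    intro u hu
    rw [Set.mem_singleton_iff] at hu
    subst hu
    change ax ι x p * ax ι x p = (1 : F) • ax ι x p
    rw [ax_idem, one_smul]

theorem indep (p : ι × Fin 4) :
    iSupIndep (fun l : (law x).carrier => eig F (ax ι x p) (l : F)) := by
  have h := Module.End.eigenspaces_iSupIndep (LinearMap.mulLeft F (ax ι x p))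
  have h2 : (fun l : (law x).carrier => eig F (ax ι x p) (l : F)) =
      (fun l : (law x).carrier =>
        Module.End.eigenspace (LinearMap.mulLeft F (ax ι x p)) (l : F)) := by
    funext l
    ext v
    rw [Module.End.mem_eigenspace_iff]
    rfl
  rw [h2]
  exact h.comp Subtype.val_injective

theorem isAxis (hx0 : x ≠ 0) (hx1 : x ≠ 1) (p : ι × Fin 4) : IsAxis (law x) (ax ι x p) := by
  have m1 : (1 : F) ∈ (law x).carrier := by simp [law]
  have m0 : (0 : F) ∈ (law x).carrier := by simp [law]
  have mx : x ∈ (law x).carrier := by simp [law]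
  refine ⟨ax_ne_zero ι x p, ax_idem ι x p, indep ι x p, ?_, ?_⟩
  · rw [eq_top_iff]
    intro u _
    set φ := (u.1 p.1).1 p.2 with hφ
    have haa := ax_ax_mul ι x p u
    rw [← hφ] at haa
    have e1 : φ • ax ι x p ∈ eig F (ax ι x p) 1 := by
      change ax ι x p * (φ • ax ι x p) = (1 : F) • (φ • ax ι x p)
      rw [mul_smul_comm, ax_idem, one_smul]
    have e2 : x⁻¹ • (ax ι x p * u - φ • ax ι x p) ∈ eig F (ax ι x p) x := by
      change ax ι x p * (x⁻¹ • (ax ι x p * u - φ • ax ι x p)) =
        x • (x⁻¹ • (ax ι x p * u - φ • ax ι x p))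
      rw [mul_smul_comm, mul_sub, mul_smul_comm, ax_idem, haa, smul_comm x x⁻¹]
      congr 1
      abel
    have e3 : u - φ • ax ι x p - x⁻¹ • (ax ι x p * u - φ • ax ι x p) ∈ eig F (ax ι x p) 0 := by
      change ax ι x p * (u - φ • ax ι x p - x⁻¹ • (ax ι x p * u - φ • ax ι x p)) =
        (0 : F) • (u - φ • ax ι x p - x⁻¹ • (ax ι x p * u - φ • ax ι x p))
      rw [zero_smul, mul_sub, mul_sub, mul_smul_comm, mul_smul_comm, ax_idem, mul_sub,
        mul_smul_comm, ax_idem, haa, add_sub_cancel_left, inv_smul_smul₀ hx0, sub_self]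
    have e4 : u = φ • ax ι x p + x⁻¹ • (ax ι x p * u - φ • ax ι x p) +
        (u - φ • ax ι x p - x⁻¹ • (ax ι x p * u - φ • ax ι x p)) := by abel
    rw [e4]
    exact add_mem (add_mem (Submodule.mem_iSup_of_mem ⟨1, m1⟩ e1)
      (Submodule.mem_iSup_of_mem ⟨x, mx⟩ e2)) (Submodule.mem_iSup_of_mem ⟨0, m0⟩ e3)
  · have h01 : (0 : F) ≠ 1 := zero_ne_one
    have c1 : ∀ u ∈ eig F (ax ι x p) 1, ∃ c : F, u = c • ax ι x p := by
      intro u hu
      rw [eig_one ι x hx1, Submodule.mem_span_singleton] at hu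
      obtain ⟨c, rfl⟩ := hu
      exact ⟨c, rfl⟩
    -- the cases with a `1`
    have k1 : ∀ (m : F) u v, u ∈ eig F (ax ι x p) 1 → v ∈ eig F (ax ι x p) m →
        u * v ∈ eig F (ax ι x p) m := by
      intro m u v hu hv
      obtain ⟨c, rfl⟩ := c1 u hu
      rw [smul_mul_assoc]
      apply Submodule.smul_mem
      have hv' : ax ι x p * v = m • v := hv
      rw [hv']
      exact Submodule.smul_mem _ _ hv
    have k10 : ∀ u v, u ∈ eig F (ax ι x p) 1 → v ∈ eig F (ax ι x p) 0 → u * v = 0 := by
      intro u v hu hv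
      obtain ⟨c, rfl⟩ := c1 u hu
      have hv' : ax ι x p * v = (0 : F) • v := hv
      rw [smul_mul_assoc, hv', zero_smul, smul_zero]
    have k00 : ∀ u v, u ∈ eig F (ax ι x p) 0 → v ∈ eig F (ax ι x p) 0 →
        u * v ∈ eig F (ax ι x p) 0 := by
      intro u v hu hv
      change ax ι x p * u = (0 : F) • u at hu
      change ax ι x p * v = (0 : F) • v at hv
      change ax ι x p * (u * v) = (0 : F) • (u * v)
      rw [zero_smul] at *
      rw [ax_mul] at *
      have hz : (0 : AI F ι x) = inj ι x p.1 0 := (inj_zero ι x p.1).symm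
      rw [hz] at hu hv ⊢
      have hu' := inj_injective ι x p.1 hu
      have hv' := inj_injective ι x p.1 hv
      congr 1
      exact zero_zero x hx0 p.2 _ _ hu' hv'
    have k0x : ∀ u v, u ∈ eig F (ax ι x p) 0 → v ∈ eig F (ax ι x p) x →
        u * v ∈ eig F (ax ι x p) x := by
      intro u v hu hv
      rw [eig_x ι x hx0 hx1] at hv ⊢
      obtain ⟨w, rfl⟩ := hv
      change ax ι x p * u = (0 : F) • u at hu
      rw [zero_smul, ax_mul] at hu
      have h6 : (u.1 p.1).2.1 6 = 0 := by
        have h8 := congrArg (fun z : AI F ι x => (z.1 p.1).2.1 6) hu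
        simp only [inj_apply_same, axB_mul] at h8
        have h7 : pm (Pi.single p.2 1) (u.1 p.1).1 6 = 0 := rfl
        rw [h7, zero_add] at h8
        exact (mul_eq_zero.mp h8).resolve_left hx0
      refine ⟨(mulB x (u.1 p.1) ((0, w, 0) : BB F)).2.1, ?_⟩
      rw [eq_inj_iff]
      refine ⟨?_, fun j hj => ?_, ?_⟩
      · rw [mul_fst, inj_apply_same]
        refine Prod.ext ?_ (Prod.ext rfl ?_)
        · funext i
          simp [mulB]
        · simp [mulB, h6]
      · rw [mul_fst, inj_apply_ne ι x hj, mulB_zero]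
      · rw [mul_snd]
        have : ms F ι (inj ι x p.1 ((0, w, 0) : BB F)).1 = 0 := ms_single ι p.1 _
        rw [this, mul_zero]
    have kxx : ∀ u v, u ∈ eig F (ax ι x p) x → v ∈ eig F (ax ι x p) x →
        u * v ∈ eig F (ax ι x p) 0 ⊔ eig F (ax ι x p) x := by
      intro u v hu hv
      rw [eig_x ι x hx0 hx1] at hu hv
      obtain ⟨w, rfl⟩ := hu
      obtain ⟨z, rfl⟩ := hv
      have e : inj ι x p.1 ((0, w, 0) : BB F) * inj ι x p.1 ((0, z, 0) : BB F) =
          inj ι x p.1 ((0, 0, w 6 * z 6) : BB F) +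
          inj ι x p.1 ((0, fun k => jmul x w z k, 0) : BB F) := by
        rw [← inj_add, eq_inj_iff]
        refine ⟨?_, fun j hj => ?_, ?_⟩
        · rw [mul_fst, inj_apply_same, inj_apply_same]
          refine Prod.ext ?_ (Prod.ext (funext fun k => ?_) ?_)
          · funext i
            simp [mulB]
          · have h1 : tr (0 : Fin 4 → F) = 0 := by simp [tr]
            have h2 : pm (0 : Fin 4 → F) 0 k = 0 := pm_zero_right _ _
            simp [mulB, h1, h2]
          · simp [mulB]
        · rw [mul_fst, inj_apply_ne ι x hj, zero_mulB]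
        · rw [mul_snd]
          have : ms F ι (inj ι x p.1 ((0, z, 0) : BB F)).1 = 0 := ms_single ι p.1 _
          rw [this, mul_zero]
      rw [e]
      refine Submodule.add_mem_sup ?_ ?_
      · change ax ι x p * _ = (0 : F) • _
        rw [ax_mul, zero_smul, inj_apply_same, axB_mul]
        refine Eq.trans (congrArg (inj ι x p.1) ?_) (inj_zero ι x p.1)
        refine Prod.ext ?_ (Prod.ext (funext fun k => ?_) rfl)
        · simp
        · have : pm (Pi.single p.2 1) (0 : Fin 4 → F) k = 0 := pm_zero_right _ _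
          simp [this]
      · rw [eig_x ι x hx0 hx1]
        exact ⟨_, rfl⟩
    intro l hl m hm u hu v hv
    have hsup : ∀ n, n ∈ (law x).star l m → ∀ w ∈ eig F (ax ι x p) n,
        w ∈ ⨆ n ∈ (law x).star l m, eig F (ax ι x p) n := fun n hn w hw =>
      Submodule.mem_iSup_of_mem n (Submodule.mem_iSup_of_mem hn hw)
    simp only [law, Set.mem_insert_iff, Set.mem_singleton_iff] at hl hm
    rcases hl with rfl | rfl | rfl
    · rcases hm with rfl | rfl | rfl
      · exact hsup 1 (by simp [law]) _ (k1 1 u v hu hv)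
      · rw [k10 u v hu hv]; exact zero_mem _
      · exact hsup _ (by simp [law]) _ (k1 _ u v hu hv)
    · rcases hm with rfl | rfl | rfl
      · rw [mul_comm, k10 v u hv hu]; exact zero_mem _
      · exact hsup 0 (by simp [law]) _ (k00 u v hu hv)
      · exact hsup _ (by simp [law]) _ (k0x u v hu hv)
    · rcases hm with rfl | rfl | rfl
      · rw [mul_comm]
        exact hsup _ (by simp [law]) _ (k1 _ v u hv hu)
      · rw [mul_comm]
        exact hsup _ (by simp [law]) _ (k0x v u hv hu)
      · have h := kxx u v hu hv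
        rw [Submodule.mem_sup] at h
        obtain ⟨y, hy, z, hz, hyz⟩ := h
        rw [← hyz]
        exact add_mem (hsup 0 (by simp [law]) _ hy) (hsup _ (by simp [law]) _ hz)

/-! ### Generation, indecomposability and the graph -/

/-- The set of axes. -/
def XX : Set (AI F ι x) := Set.range (ax ι x)

theorem inj_mul (i : ι) (b c : BB F) (h : b.2.2 = 0) :
    inj ι x i b * inj ι x i c = inj ι x i (mulB x b c) := by
  rw [eq_inj_iff]
  refine ⟨?_, fun j hj => ?_, ?_⟩
  · rw [mul_fst, inj_apply_same, inj_apply_same]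
  · rw [mul_fst, inj_apply_ne ι x hj, zero_mulB]
  · rw [mul_snd]
    have : ms F ι (inj ι x i b).1 = 0 := (ms_single ι i _).trans h
    rw [this, zero_mul]

/-- The element `w`. -/
noncomputable def ww : AI F ι x := ((0, 1) : (ι →₀ BB F) × F)

theorem m_prod {i j : ι} (hij : i ≠ j) : inj ι x i (me F) * inj ι x j (me F) = ww ι x := by
  refine Prod.ext (Finsupp.ext fun k => ?_) ?_
  · rw [mul_fst]
    change _ = (0 : BB F)
    by_cases hk : k = i
    · subst hk
      rw [inj_apply_ne ι x hij, mulB_zero]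
    · rw [inj_apply_ne ι x hk, zero_mulB]
  · rw [mul_snd]
    have h1 : ms F ι (inj ι x i (me F)).1 = 1 := ms_single ι i _
    have h2 : ms F ι (inj ι x j (me F)).1 = 1 := ms_single ι j _
    rw [h1, h2, mul_one]
    rfl

theorem generate [Nontrivial ι] (N : Submodule F (AI F ι x)) (hX : XX ι x ⊆ N)
    (hN : ∀ u ∈ N, ∀ v ∈ N, u * v ∈ N) : N = ⊤ := by
  have ha : ∀ s i, inj ι x s (axB F i) ∈ N := fun s i => hX ⟨(s, i), rfl⟩
  have hmul : ∀ s b c, b.2.2 = 0 → inj ι x s b ∈ N → inj ι x s c ∈ N →
      inj ι x s (mulB x b c) ∈ N := by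
    intro s b c h hb hc
    rw [← inj_mul ι x s b c h]
    exact hN _ hb _ hc
  have hp : ∀ (s : ι) (k : Fin 7), inj ι x s (pe F k) ∈ N := by
    intro s
    have h0 : inj ι x s (pe F 0) ∈ N := by
      rw [← ax_prod x 0 1 0 (by simp) (fun l => by fin_cases l <;> simp [pm])]
      exact hmul _ _ _ rfl (ha s 0) (ha s 1)
    have h1 : inj ι x s (pe F 1) ∈ N := by
      rw [← ax_prod x 2 3 1 (by simp) (fun l => by fin_cases l <;> simp [pm])]
      exact hmul _ _ _ rfl (ha s 2) (ha s 3)
    have h2 : inj ι x s (pe F 2) ∈ N := by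
      rw [← ax_prod x 0 2 2 (by simp) (fun l => by fin_cases l <;> simp [pm])]
      exact hmul _ _ _ rfl (ha s 0) (ha s 2)
    have h3 : inj ι x s (pe F 3) ∈ N := by
      rw [← ax_prod x 1 3 3 (by simp) (fun l => by fin_cases l <;> simp [pm])]
      exact hmul _ _ _ rfl (ha s 1) (ha s 3)
    have h4 : inj ι x s (pe F 4) ∈ N := by
      rw [← ax_prod x 0 3 4 (by simp) (fun l => by fin_cases l <;> simp [pm])]
      exact hmul _ _ _ rfl (ha s 0) (ha s 3)
    have h5 : inj ι x s (pe F 5) ∈ N := by
      rw [← ax_prod x 1 2 5 (by simp) (fun l => by fin_cases l <;> simp [pm])]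
      exact hmul _ _ _ rfl (ha s 1) (ha s 2)
    have h6 : inj ι x s (pe F 6) ∈ N := by
      rw [← p_prod x]
      exact hmul _ _ _ rfl h0 h1
    intro k
    match k with
    | 0 => exact h0
    | 1 => exact h1
    | 2 => exact h2
    | 3 => exact h3
    | 4 => exact h4
    | 5 => exact h5
    | 6 => exact h6
  have hm : ∀ s, inj ι x s (me F) ∈ N := by
    intro s
    rw [← n_prod x]
    exact hmul _ _ _ rfl (hp s 6) (hp s 6)
  have hw : ww ι x ∈ N := by
    obtain ⟨i, j, hij⟩ := exists_pair_ne ι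
    rw [← m_prod ι x hij]
    exact hN _ (hm i) _ (hm j)
  have hb : ∀ s b, inj ι x s b ∈ N := by
    intro s b
    let f : BB F →ₗ[F] AI F ι x :=
      { toFun := inj ι x s, map_add' := inj_add ι x s, map_smul' := inj_smul ι x s }
    have : b ∈ N.comap f := by
      rw [BB_decomp b]
      refine add_mem (add_mem (sum_mem fun i _ => Submodule.smul_mem _ _ (ha s i))
        (sum_mem fun k _ => Submodule.smul_mem _ _ (hp s k))) (Submodule.smul_mem _ _ (hm s))
    exact this
  rw [eq_top_iff]
  intro u _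
  let e : (ι →₀ BB F) → AI F ι x := fun v => (v, 0)
  have h1 : ∀ v : ι →₀ BB F, e v ∈ N := by
    intro v
    induction v using Finsupp.induction_linear with
    | zero => exact zero_mem N
    | add f g hf hg =>
      have : e (f + g) = e f + e g := Prod.ext rfl (add_zero 0).symm
      rw [this]
      exact add_mem hf hg
    | single s b => exact hb s b
  have h2 : u = e u.1 + u.2 • ww ι x := by
    refine Prod.ext (Finsupp.ext fun j => ?_) ?_
    · change u.1 j = u.1 j + u.2 • (0 : BB F)
      rw [smul_zero, add_zero]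
    · change u.2 = 0 + u.2 * 1
      ring
  rw [h2]
  exact add_mem (h1 _) (Submodule.smul_mem _ _ hw)

theorem ax_ax_of_ne {p q : ι × Fin 4} (h : p.1 ≠ q.1) : ax ι x p * ax ι x q = 0 := by
  rw [ax_mul]
  have h1 : (ax ι x q).1 p.1 = 0 := inj_apply_ne ι x h _
  rw [h1, mulB_zero, inj_zero]

theorem ax_ax_ne_zero (s : ι) (i j : Fin 4) : ax ι x (s, i) * ax ι x (s, j) ≠ 0 := by
  by_cases h : i = j
  · subst h
    rw [ax_idem]
    exact ax_ne_zero ι x _
  · rw [ax, ax, inj_mul ι x s _ _ rfl]
    intro h0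
    have h1 : (mulB x (axB F i) (axB F j)) = 0 := by
      apply inj_injective ι x s
      rw [h0, inj_zero]
    rw [axB_mul] at h1
    have h2 : ∀ k, pm (Pi.single i (1 : F)) (Pi.single j 1) k + x * 0 = 0 := fun k =>
      congrArg (fun w : BB F => w.2.1 k) h1
    have h3 : ∀ k, pm (Pi.single i (1 : F)) (Pi.single j 1) k = 0 := by
      intro k
      have := h2 k
      rwa [mul_zero, add_zero] at this
    fin_cases i <;> fin_cases j <;> first
      | exact h rfl
      | (have := h3 0; simp [pm] at this; done)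
      | (have := h3 1; simp [pm] at this; done)
      | (have := h3 2; simp [pm] at this; done)
      | (have := h3 3; simp [pm] at this; done)
      | (have := h3 4; simp [pm] at this; done)
      | (have := h3 5; simp [pm] at this; done)

/-- Indecomposability. -/
theorem indecomposable [Nontrivial ι] (hx1 : x ≠ 1) : Indecomposable F (AI F ι x) := by
  obtain ⟨o, -, -⟩ := exists_pair_ne ι
  refine ⟨⟨⟨ax ι x (o, 0), 0, ax_ne_zero ι x _⟩⟩, ?_⟩
  intro k I hk hne hideal hann hind htop
  let i0 : Fin k := ⟨0, by omega⟩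
  let i1 : Fin k := ⟨1, by omega⟩
  have hi : i0 ≠ i1 := by
    intro h
    have := congrArg Fin.val h
    simp [i0, i1] at this
  let P := I i0
  let Q : Submodule F (AI F ι x) := ⨆ j, ⨆ (_ : j ≠ i0), I j
  have hPQ : Disjoint P Q := hind i0
  have hsup : P ⊔ Q = ⊤ := by
    rw [eq_top_iff, ← htop]
    apply iSup_le
    intro j
    by_cases hj : j = i0
    · subst hj; exact le_sup_left
    · exact le_sup_of_le_right (le_iSup_of_le j (le_iSup_of_le hj le_rfl))
  have hPi : ∀ u ∈ P, ∀ v, u * v ∈ P := hideal i0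
  have hQi : ∀ u ∈ Q, ∀ v, u * v ∈ Q := by
    intro u hu v
    have : Q ≤ Q.comap (LinearMap.mulRight F v) := by
      apply iSup_le
      intro j
      apply iSup_le
      intro hj w hw
      exact Submodule.mem_iSup_of_mem j (Submodule.mem_iSup_of_mem hj (hideal j w hw v))
    exact this hu
  have hPQ0 : ∀ u ∈ P, ∀ v ∈ Q, u * v = 0 := by
    intro u hu v hv
    have : Q ≤ LinearMap.ker (LinearMap.mulLeft F u) := by
      apply iSup_le
      intro j
      apply iSup_le
      intro hj w hw
      exact hann i0 j hj.symm u hu w hw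
    exact this hv
  -- every axis lies in one of the two parts
  have hax : ∀ p, ax ι x p ∈ P ∨ ax ι x p ∈ Q := by
    intro p
    have h1 : ax ι x p ∈ P ⊔ Q := by rw [hsup]; trivial
    obtain ⟨u, hu, v, hv, huv⟩ := Submodule.mem_sup.mp h1
    have h2 : ax ι x p * u = u * u := by
      rw [← huv, add_mul, mul_comm v u, hPQ0 u hu v hv, add_zero]
    have h3 : u * u - u = v - v * v := by
      have h4 : ax ι x p * ax ι x p = ax ι x p := ax_idem ι x p
      rw [← huv, add_mul, mul_add, mul_add, hPQ0 u hu v hv, mul_comm v u, hPQ0 u hu v hv,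
        add_zero, zero_add] at h4
      rw [sub_eq_sub_iff_add_eq_add]
      rw [h4]
      abel
    have h5 : u * u - u = 0 := by
      have h6 : u * u - u ∈ P := sub_mem (hPi u hu u) hu
      have h7 : u * u - u ∈ Q := by rw [h3]; exact sub_mem hv (hQi v hv v)
      exact Submodule.disjoint_def.mp hPQ _ h6 h7
    have h8 : u ∈ eig F (ax ι x p) 1 := by
      change ax ι x p * u = (1 : F) • u
      rw [h2, one_smul, ← sub_eq_zero, h5]
    rw [eig_one ι x hx1, Submodule.mem_span_singleton] at h8
    obtain ⟨c, hc⟩ := h8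
    by_cases hc0 : c = 0
    · right
      rw [hc0, zero_smul] at hc
      rw [← huv, ← hc, zero_add]
      exact hv
    · left
      have : ax ι x p = c⁻¹ • u := by rw [← hc, inv_smul_smul₀ hc0]
      rw [this]
      exact Submodule.smul_mem _ _ hu
  -- the axes of one side lie in the same part
  have hside : ∀ s, (∀ i, ax ι x (s, i) ∈ P) ∨ (∀ i, ax ι x (s, i) ∈ Q) := by
    intro s
    rcases hax (s, 0) with h0 | h0
    · left
      intro i
      rcases hax (s, i) with h | h
      · exact h
      · exact absurd (hPQ0 _ h0 _ h) (ax_ax_ne_zero ι x s 0 i)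
    · right
      intro i
      rcases hax (s, i) with h | h
      · exact absurd (hPQ0 _ h _ h0) (ax_ax_ne_zero ι x s i 0)
      · exact h
  -- the element `m` of one side
  have hm : ∀ (M : Submodule F (AI F ι x)) (_ : ∀ u ∈ M, ∀ v, u * v ∈ M) (s : ι)
      (_ : ∀ i, ax ι x (s, i) ∈ M), inj ι x s (me F) ∈ M := by
    intro M hM s hs
    have e0 : inj ι x s (pe F 0) ∈ M := by
      rw [← ax_prod x 0 1 0 (by simp) (fun l => by fin_cases l <;> simp [pm]),
        ← inj_mul ι x s _ _ rfl]
      exact hM _ (hs 0) _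
    have e6 : inj ι x s (pe F 6) ∈ M := by
      rw [← p_prod x, ← inj_mul ι x s _ _ rfl]
      exact hM _ e0 _
    rw [← n_prod x, ← inj_mul ι x s _ _ rfl]
    exact hM _ e6 _
  have hw0 : ww ι x ≠ 0 := by
    intro h
    have : (1 : F) = 0 := congrArg (fun u : AI F ι x => u.2) h
    exact one_ne_zero this
  have htopP : P ≠ ⊤ := by
    intro h
    apply hne i1
    rw [eq_bot_iff]
    intro v hv
    have h1 : v ∈ Q := Submodule.mem_iSup_of_mem i1 (Submodule.mem_iSup_of_mem hi.symm hv)
    have h2 : v ∈ P := by rw [h]; trivial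
    exact Submodule.disjoint_def.mp hPQ _ h2 h1
  have htopQ : Q ≠ ⊤ := by
    intro h
    apply hne i0
    rw [eq_bot_iff]
    intro v hv
    have h1 : v ∈ Q := by rw [h]; trivial
    exact Submodule.disjoint_def.mp hPQ _ hv h1
  have hcl : ∀ M : Submodule F (AI F ι x), (∀ u ∈ M, ∀ v, u * v ∈ M) →
      (∀ s i, ax ι x (s, i) ∈ M) → M = ⊤ := by
    intro M hM hs
    apply generate ι x M
    · rintro _ ⟨⟨s, i⟩, rfl⟩
      exact hs s i
    · intro u hu v _
      exact hM u hu v
  by_cases hallP : ∀ s, ∀ i, ax ι x (s, i) ∈ P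
  · exact htopP (hcl P hPi hallP)
  · push Not at hallP
    obtain ⟨s, i, hsi⟩ := hallP
    have hsQ : ∀ i, ax ι x (s, i) ∈ Q := by
      rcases hside s with h | h
      · exact absurd (h i) hsi
      · exact h
    by_cases hallQ : ∀ s, ∀ i, ax ι x (s, i) ∈ Q
    · exact htopQ (hcl Q hQi hallQ)
    · push Not at hallQ
      obtain ⟨t, j, htj⟩ := hallQ
      have htP : ∀ i, ax ι x (t, i) ∈ P := by
        rcases hside t with h | h
        · exact h
        · exact absurd (h j) htj
      have hts : t ≠ s := by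
        rintro rfl
        exact htj (hsQ j)
      apply hw0
      rw [← m_prod ι x hts]
      exact hPQ0 _ (hm P hPi t htP) _ (hm Q hQi s hsQ)

theorem ax_injective : Function.Injective (ax (F := F) ι x) := by
  rintro ⟨s, i⟩ ⟨t, j⟩ h
  have h1 : ((ax ι x (s, i)).1 s).1 i = 1 := by
    rw [ax, inj_apply_same]
    simp [axB]
  have hst : s = t := by
    by_contra hne
    have h2 : (ax ι x (t, j)).1 s = 0 := inj_apply_ne ι x hne _
    rw [h, h2] at h1
    exact zero_ne_one h1
  subst hst
  have hij : i = j := by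
    by_contra hne
    have h2 : ((ax ι x (s, j)).1 s).1 i = 0 := by
      rw [ax, inj_apply_same]
      simp [axB, hne]
    rw [h, h2] at h1
    exact zero_ne_one h1
  subst hij
  rfl

/-- The graph of the algebra. -/
noncomputable def iso : graph (XX (F := F) ι x) ≃g copiesK4 ι := by
  refine RelIso.symm ⟨Equiv.ofInjective (ax ι x) (ax_injective ι x), ?_⟩
  rintro ⟨s, i⟩ ⟨t, j⟩
  change ((Equiv.ofInjective (ax ι x) (ax_injective ι x)) (s, i) ≠
    (Equiv.ofInjective (ax ι x) (ax_injective ι x)) (t, j) ∧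
      ax ι x (s, i) * ax ι x (t, j) ≠ 0) ↔ s = t ∧ i ≠ j
  rw [ne_eq, (Equiv.ofInjective (ax ι x) (ax_injective ι x)).injective.eq_iff]
  constructor
  · rintro ⟨h1, h2⟩
    have hst : s = t := by
      by_contra hne
      exact h2 (ax_ax_of_ne ι x hne)
    subst hst
    exact ⟨rfl, fun h => h1 (by rw [h])⟩
  · rintro ⟨rfl, h⟩
    exact ⟨fun h' => h (congrArg Prod.snd h'), ax_ax_ne_zero ι x s i j⟩

theorem h1 : St1.{u} := by
  intro F _ x hx0 hx1 ι hι
  refine ⟨law x, AI F ι x, inferInstance, inferInstance, inferInstance, inferInstance, XX ι x,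
    rfl, law_seress x hx0 hx1, ?_, ⟨?_, ?_⟩, indecomposable ι x hx1, ⟨iso ι x⟩⟩
  · intro hfin
    refine ⟨?_, Set.finite_range _⟩
    exact inferInstanceAs (Module.Finite F ((ι →₀ BB F) × F))
  · rintro _ ⟨p, rfl⟩
    exact ⟨isAxis ι x hx0 hx1 p, eig_one ι x hx1 p⟩
  · intro N hX hN
    exact generate ι x N hX hN

end Pool.Agent.Y437.AX1
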