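import Pool.Agent.H198R3.AxialFinal

/-!
# Statements: primitive axial algebras with any number of components
-/

namespace Pool.Agent.Y437.AX

open Pool.Agent.H198R3.Axial

universe u

/-- The disjoint union of copies, indexed by `ι`, of the complete graph on four vertices. -/
def copiesK4 (ι : Type u) : SimpleGraph (ι × Fin 4) where
  Adj a b := a.1 = b.1 ∧ a.2 ≠ b.2
  symm := ⟨fun _ _ h => ⟨h.1.symm, h.2.symm⟩⟩
  loopless := ⟨fun _ h => h.2 rfl⟩

/-- Statement 1: for every field `F`, `x ≠ 0, 1` and every index type `ι` with at least two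
elements, an indecomposable primitive axial algebra whose graph is `ι` disjoint copies of `K_4`. -/
def St1 : Prop := ∀ (F : Type u) [Field F] (x : F), x ≠ 0 → x ≠ 1 → ∀ (ι : Type u), Nontrivial ι →
    ∃ (L : FusionLaw F) (A : Type u) (_ : NonUnitalNonAssocCommRing A) (_ : Module F A)
      (_ : IsScalarTower F A A) (_ : SMulCommClass F A A) (X : Set A),
      L.carrier = {1, 0, x} ∧ L.IsSeress ∧ (Finite ι → Module.Finite F A ∧ X.Finite) ∧
        IsPrimitiveAxial L X ∧ Indecomposable F A ∧ Nonempty (graph X ≃g copiesK4 ι)

/-- Statement 2: if all eigenvalues are `0` or `1` then an indecomposable primitive axial algebra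
has exactly one axis. -/
def St2 : Prop := ∀ (F : Type u) [Field F] (L : FusionLaw F) (A : Type u)
      [NonUnitalNonAssocCommRing A] [Module F A] [IsScalarTower F A A] [SMulCommClass F A A]
      (X : Set A), L.carrier ⊆ {0, 1} → IsPrimitiveAxial L X → Indecomposable F A →
      ∃ a, X = {a}

end Pool.Agent.Y437.AX
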